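import Mathlib

set_option autoImplicit false

namespace Pool.Agent.Results.MP_b9b46b_al.AlwaysEquivalent

/-- The order is compatible with the ring operations. -/
def OrderCompat (R : Type) [Ring R] [PartialOrder R] : Prop :=
  (∀ x y z : R, x ≤ y → x + z ≤ y + z) ∧ (∀ x y : R, 0 ≤ x → 0 ≤ y → 0 ≤ x * y)

/-- An f-ring: a lattice-ordered ring that is a subdirect product of totally ordered rings. -/
def IsFRing (A : Type) [CommRing A] [Lattice A] : Prop :=
  OrderCompat A ∧
  ∃ (ι : Type) (R : ι → Type) (_ : ∀ i, Ring (R i)) (_ : ∀ i, LinearOrder (R i))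
    (φ : ∀ i, A →+* R i),
    (∀ i, OrderCompat (R i)) ∧ (∀ i, Function.Surjective (φ i)) ∧
    (∀ i x y, φ i (x ⊔ y) = φ i x ⊔ φ i y) ∧ (∀ i x y, φ i (x ⊓ y) = φ i x ⊓ φ i y) ∧
    (∀ x y, (∀ i, φ i x = φ i y) → x = y)

/-- The class `C`: reduced f-rings with bounded inversion. -/
def InClassC (A : Type) [CommRing A] [Lattice A] : Prop :=
  IsFRing A ∧ (∀ x : A, IsNilpotent x → x = 0) ∧ (∀ x : A, 1 < x → IsUnit x)

/-- Condition (a): the local-global property. -/
def LG (A : Type) [CommRing A] : Prop :=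
  ∀ (n : ℕ), 1 ≤ n → ∀ f : MvPolynomial (Fin n) A,
    (∀ (M : Ideal A) [M.IsMaximal], ∃ x : Fin n → Localization.AtPrime M,
      IsUnit (MvPolynomial.aeval x f)) →
    ∃ y : Fin n → A, IsUnit (MvPolynomial.eval y f)

/-- Condition (b). -/
def CondB (A : Type) [CommRing A] [Lattice A] : Prop :=
  ∀ a b : A, 0 ≤ a → 0 ≤ b → Ideal.span {a} ⊔ Ideal.span {b} = ⊤ →
    ∃ u : A, IsUnit (a - b * u ^ 2)

section order
variable {R : Type} [Ring R] [LinearOrder R]

theorem neg_nonneg' (h : OrderCompat R) {x : R} (hx : x ≤ 0) : 0 ≤ -x := by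
  have := h.1 x 0 (-x) hx
  simpa using this

theorem sq_nn (h : OrderCompat R) (x : R) : 0 ≤ x * x := by
  rcases le_total 0 x with hx | hx
  · exact h.2 x x hx hx
  · have := h.2 _ _ (neg_nonneg' h hx) (neg_nonneg' h hx)
    simpa using this

theorem pos_neg (h : OrderCompat R) (x : R) :
    (x ⊔ 0) - ((-x) ⊔ 0) = x ∧ (x ⊔ 0) * ((-x) ⊔ 0) = 0 := by
  rcases le_total 0 x with hx | hx
  · have h1 : -x ≤ 0 := by
      have := h.1 0 x (-x) hx
      simpa using this
    rw [sup_eq_left.mpr hx, sup_eq_right.mpr h1]; simp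
  · rw [sup_eq_right.mpr hx, sup_eq_left.mpr (neg_nonneg' h hx)]; simp

end order

section fring
variable {A : Type} [CommRing A] [Lattice A]

theorem fsq (h : IsFRing A) (x : A) : 0 ≤ x * x := by
  obtain ⟨-, ι, R, _, _, φ, h1, -, h2, -, h3⟩ := h
  apply sup_eq_left.mp
  apply h3
  intro i
  rw [h2, map_zero, map_mul]
  exact sup_eq_left.mpr (sq_nn (h1 i) _)

theorem fposneg (h : IsFRing A) (x : A) :
    (x ⊔ 0) - ((-x) ⊔ 0) = x ∧ (x ⊔ 0) * ((-x) ⊔ 0) = 0 := by
  obtain ⟨-, ι, R, _, _, φ, h1, -, h2, -, h3⟩ := h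
  constructor
  · apply h3
    intro i
    rw [map_sub, h2, h2, map_zero, map_neg]
    exact (pos_neg (h1 i) _).1
  · apply h3
    intro i
    rw [map_mul, h2, h2, map_zero, map_neg]
    exact (pos_neg (h1 i) _).2

theorem le_iff_sub (h : IsFRing A) (x y : A) : x ≤ y ↔ 0 ≤ y - x := by
  constructor
  · intro hxy
    have := h.1.1 x y (-x) hxy
    simpa [sub_eq_add_neg] using this
  · intro hxy
    have := h.1.1 0 (y - x) x hxy
    simpa using this

theorem add_nn (h : IsFRing A) {x y : A} (hx : 0 ≤ x) (hy : 0 ≤ y) : 0 ≤ x + y := by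
  have := h.1.1 0 x y hx
  rw [zero_add] at this
  exact hy.trans this

theorem convex (h : InClassC A) (M : Ideal A) (hM : M.IsMaximal) {x y : A} (hx : 0 ≤ x)
    (hxy : x ≤ y) (hy : y ∈ M) : x ∈ M := by
  by_contra hne
  obtain ⟨r, m, hm, hr⟩ := hM.exists_inv hne
  have hF := h.1
  have h1 : 0 ≤ (r * r) * (x * (y - x)) :=
    hF.1.2 _ _ (fsq hF r) (hF.1.2 _ _ hx ((le_iff_sub hF _ _).mp hxy))
  have h2 : 1 ≤ 2 * (m * m) + 2 * (r * r * x) * y := by
    rw [le_iff_sub hF]
    have e : 2 * (m * m) + 2 * (r * r * x) * y - 1 =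
        (m - r * x) * (m - r * x) + ((r * r) * (x * (y - x)) + (r * r) * (x * (y - x))) := by
      linear_combination (r * x + m + 1) * hr
    rw [e]
    exact add_nn hF (fsq hF _) (add_nn hF h1 h1)
  have h3 : 2 * (m * m) + 2 * (r * r * x) * y ∈ M :=
    M.add_mem (M.mul_mem_left _ (M.mul_mem_left _ hm)) (M.mul_mem_left _ hy)
  apply hM.ne_top
  rcases h2.eq_or_lt with e | hlt
  · rw [← e] at h3
    exact (Ideal.eq_top_iff_one M).mpr h3
  · exact Ideal.eq_top_of_isUnit_mem M h3 (h.2.2 _ hlt)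

theorem separate (h : InClassC A) (hB : CondB A) (a b : A) (hab : IsCoprime a b) :
    ∃ e : A, e * (1 - e) = 0 ∧ ∀ M : Ideal A, M.IsMaximal → (a ∈ M → e ∈ M) ∧ (b ∈ M → 1 - e ∈ M) := by
  have hF := h.1
  have hc : IsCoprime (a * a) (b * b) :=
    (hab.mul_left hab).mul_right (hab.mul_left hab)
  obtain ⟨u, c, hcu⟩ := hB (a * a) (b * b) (fsq hF a) (fsq hF b)
    (Ideal.isCoprime_iff_sup_eq.mp ((Ideal.isCoprime_span_singleton_iff _ _).mpr hc))
  obtain ⟨p1, p2⟩ := fposneg hF (c : A)
  have hi : (c : A) * (c⁻¹ : Aˣ) = 1 := c.mul_inv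
  have e1 : 1 - ((c : A) ⊔ 0) * (c⁻¹ : Aˣ) = - ((-(c : A)) ⊔ 0) * (c⁻¹ : Aˣ) := by
    linear_combination (-1) * hi + (-((c⁻¹ : Aˣ) : A)) * p1
  refine ⟨((c : A) ⊔ 0) * (c⁻¹ : Aˣ), ?_, ?_⟩
  · rw [e1]
    linear_combination (-((c⁻¹ : Aˣ) : A) * ((c⁻¹ : Aˣ) : A)) * p2
  · intro M hM
    have hbu : 0 ≤ (b * u) * (b * u) := fsq hF _
    constructor
    · intro ha
      apply M.mul_mem_right
      apply convex h M hM le_sup_right (y := a * a) _ (M.mul_mem_left _ ha)
      apply sup_le _ (fsq hF a)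
      rw [le_iff_sub hF, hcu]
      have : a * a - (a * a - b * b * u ^ 2) = (b * u) * (b * u) := by ring
      rw [this]; exact hbu
    · intro hb
      rw [e1]
      apply M.mul_mem_right
      apply M.neg_mem
      apply convex h M hM le_sup_right (y := (b * u) * (b * u)) _
        (M.mul_mem_left _ (M.mul_mem_right _ hb))
      apply sup_le _ hbu
      rw [le_iff_sub hF, hcu]
      have : b * u * (b * u) - -(a * a - b * b * u ^ 2) = a * a := by ring
      rw [this]; exact fsq hF a

end fring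

theorem coprime_of_max {A : Type} [CommRing A] (a b : A)
    (h : ∀ M : Ideal A, M.IsMaximal → a ∈ M → b ∈ M → False) : IsCoprime a b := by
  rw [← Ideal.isCoprime_span_singleton_iff, Ideal.isCoprime_iff_sup_eq]
  by_contra hne
  obtain ⟨M, hM, hle⟩ := Ideal.exists_le_maximal _ hne
  exact h M hM (hle (Ideal.mem_sup_left (Ideal.mem_span_singleton_self a)))
    (hle (Ideal.mem_sup_right (Ideal.mem_span_singleton_self b)))

theorem max_of_coprime {A : Type} [CommRing A] {a b : A} (h : IsCoprime a b)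
    (M : Ideal A) (hM : M.IsMaximal) (ha : a ∈ M) (hb : b ∈ M) : False := by
  obtain ⟨r, s, e⟩ := h
  apply hM.ne_top
  rw [Ideal.eq_top_iff_one, ← e]
  exact M.add_mem (M.mul_mem_left _ ha) (M.mul_mem_left _ hb)

theorem eval_hom {A : Type} [CommRing A] {n : ℕ} (f : MvPolynomial (Fin n) A) (y : Fin n → A) :
    MvPolynomial.eval y f = MvPolynomial.eval₂Hom (RingHom.id A) y f := rfl

theorem eval_congr {A : Type} [CommRing A] {n : ℕ} (f : MvPolynomial (Fin n) A) (M : Ideal A)
    (y z : Fin n → A) (h : ∀ i, y i - z i ∈ M) (hy : MvPolynomial.eval y f ∈ M) :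
    MvPolynomial.eval z f ∈ M := by
  rw [← Ideal.Quotient.eq_zero_iff_mem] at hy ⊢
  rw [← hy, eval_hom, eval_hom,
    MvPolynomial.map_eval₂Hom, MvPolynomial.map_eval₂Hom]
  congr 2
  funext i
  exact (Ideal.Quotient.eq.mpr (h i)).symm

/-- Conditions (a) and (b) are equivalent for every ring of the class `C`. -/
theorem result (A : Type) [CommRing A] [Lattice A] (h : InClassC A) : LG A ↔ CondB A := by
  constructor
  · intro hLG a b _ _ hab
    have hc : IsCoprime a b :=
      (Ideal.isCoprime_span_singleton_iff _ _).mp (Ideal.isCoprime_iff_sup_eq.mpr hab)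
    obtain ⟨y, hy⟩ := hLG 1 le_rfl
      (MvPolynomial.C a - MvPolynomial.C b * MvPolynomial.X 0 ^ 2) (by
        intro M hM
        by_cases ha : a ∈ M
        · refine ⟨fun _ => 1, ?_⟩
          have h1 : a - b ∈ M.primeCompl := by
            intro h2
            have h3 : a - (a - b) ∈ M := M.sub_mem ha h2
            exact max_of_coprime hc M hM ha (by simpa using h3)
          have := IsLocalization.map_units (Localization.AtPrime M) (⟨a - b, h1⟩ : M.primeCompl)
          simpa using this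
        · refine ⟨fun _ => 0, ?_⟩
          have := IsLocalization.map_units (Localization.AtPrime M) (⟨a, ha⟩ : M.primeCompl)
          simpa using this)
    exact ⟨y 0, by simpa using hy⟩
  · intro hB n _ f hf
    have hval : ∀ M : Ideal A, M.IsMaximal → ∃ y : Fin n → A, MvPolynomial.eval y f ∉ M := by
      intro M hM
      obtain ⟨x, hx⟩ := hf M
      have hu : ∀ s : M.primeCompl, IsUnit (Ideal.Quotient.mk M s) := by
        intro s
        obtain ⟨r, m, hm, hr⟩ := hM.exists_inv s.2
        apply IsUnit.of_mul_eq_one (Ideal.Quotient.mk M r)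
        rw [← map_mul, ← map_one (Ideal.Quotient.mk M), Ideal.Quotient.eq]
        have : (s : A) * r - 1 = -m := by linear_combination hr
        rw [this]; exact M.neg_mem hm
      let ψ : Localization.AtPrime M →+* A ⧸ M := IsLocalization.lift hu
      choose y hy using fun i => Ideal.Quotient.mk_surjective (I := M) (ψ (x i))
      refine ⟨y, fun hm => ?_⟩
      have h1 := hx.map ψ
      have h2 : ψ (MvPolynomial.aeval x f) = Ideal.Quotient.mk M (MvPolynomial.eval y f) := by
        rw [MvPolynomial.aeval_eq_eval₂Hom, eval_hom,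
          MvPolynomial.map_eval₂Hom, MvPolynomial.map_eval₂Hom]
        congr 2
        · ext s
          simp [ψ]
        · funext i
          exact (hy i).symm
      rw [h2, Ideal.Quotient.eq_zero_iff_mem.mpr hm] at h1
      have := Ideal.Quotient.nontrivial_iff.mpr hM.ne_top
      exact not_isUnit_zero h1
    have htop : Ideal.span (Set.range fun y : Fin n → A => MvPolynomial.eval y f) = ⊤ := by
      by_contra hne
      obtain ⟨M, hM, hle⟩ := Ideal.exists_le_maximal _ hne
      obtain ⟨y, hy⟩ := hval M hM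
      exact hy (hle (Ideal.subset_span ⟨y, rfl⟩))
    have glue : ∀ (y1 y2 : Fin n → A) (r d : A),
        IsCoprime (MvPolynomial.eval y1 f) (r * MvPolynomial.eval y2 f + d) →
        ∃ y : Fin n → A, IsCoprime (MvPolynomial.eval y f) d := by
      intro y1 y2 r d hc
      obtain ⟨e, he, hs⟩ := separate h hB _ _ hc
      refine ⟨fun i => e * y1 i + (1 - e) * y2 i, coprime_of_max _ _ ?_⟩
      intro M hM h1 h2
      have hne : ¬ (e ∈ M ∧ 1 - e ∈ M) := by
        rintro ⟨h3, h4⟩
        apply hM.ne_top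
        rw [Ideal.eq_top_iff_one]
        simpa using M.add_mem h3 h4
      rcases hM.isPrime.mem_or_mem (show e * (1 - e) ∈ M by rw [he]; exact M.zero_mem) with
        h3 | h3
      · have h4 := eval_congr f M _ y2 (by
          intro i
          have : e * y1 i + (1 - e) * y2 i - y2 i = e * (y1 i - y2 i) := by ring
          rw [this]; exact M.mul_mem_right _ h3) h1
        exact hne ⟨h3, (hs M hM).2 (M.add_mem (M.mul_mem_left _ h4) h2)⟩
      · have h4 := eval_congr f M _ y1 (by
          intro i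
          have : e * y1 i + (1 - e) * y2 i - y1 i = (1 - e) * (y2 i - y1 i) := by ring
          rw [this]; exact M.mul_mem_right _ h3) h1
        exact hne ⟨(hs M hM).1 h4, h3⟩
    have main : ∀ t ∈ Ideal.span (Set.range fun y : Fin n → A => MvPolynomial.eval y f),
        ∀ d : A, IsCoprime t d → ∃ y : Fin n → A, IsCoprime (MvPolynomial.eval y f) d := by
      intro t ht
      induction ht using Submodule.span_induction with
      | mem x hx =>
        obtain ⟨y, rfl⟩ := hx
        exact fun d hd => ⟨y, hd⟩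
      | zero =>
        intro d hd
        obtain ⟨r, s, e⟩ := hd
        exact ⟨fun _ => 0, 0, s, by simpa using e⟩
      | add t1 t2 _ _ ih1 ih2 =>
        rintro d ⟨α, β, e⟩
        obtain ⟨y1, γ, δ, e1⟩ := ih1 (α * t2 + β * d) ⟨α, 1, by linear_combination e⟩
        obtain ⟨y2, γ', δ', e2⟩ := ih2 (γ * MvPolynomial.eval y1 f + δ * β * d)
          ⟨δ * α, 1, by linear_combination e1⟩
        obtain ⟨y, r, s, e3⟩ := glue y1 y2 γ' (δ' * δ * β * d)
          ⟨δ' * γ, 1, by linear_combination e2⟩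
        exact ⟨y, r, s * δ' * δ * β, by linear_combination e3⟩
      | smul c t _ ih =>
        rintro d ⟨α, β, e⟩
        exact ih d ⟨α * c, β, by rw [smul_eq_mul] at e; linear_combination e⟩
    obtain ⟨y, hy⟩ := main 1 (by rw [htop]; trivial) 0 isCoprime_one_left
    exact ⟨y, isCoprime_zero_right.mp hy⟩

end Pool.Agent.Results.MP_b9b46b_al.AlwaysEquivalent
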